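import Mathlib

/-!
# Definitions for MP_4235af_lc

The groups `H⁺(Dⁿ)` and `H⁺(Sⁿ)` of orientation preserving homeomorphisms, defined through
(relative) singular homology with integer coefficients, the compact-open topology on them, and
Haar null sets.
-/

open MeasureTheory Topology Set Metric CategoryTheory Limits AlgebraicTopology

namespace Pool.Agent.Work.MP_4235af_lc

/-- `A` is Haar null in the topological group `G`: there are a Borel set `B ⊇ A` and a Borel
probability measure `μ` on `G` with `μ (g B h) = 0` for all `g, h ∈ G`. -/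
def IsHaarNull {G : Type*} [Group G] [TopologicalSpace G] (A : Set G) : Prop :=
  ∃ (B : Set G) (μ : @Measure G (borel G)), A ⊆ B ∧ MeasurableSet[borel G] B ∧
    μ univ = 1 ∧ ∀ g h : G, μ ((fun x => g * x * h) '' B) = 0

/-- The topological group `G` can be partitioned into two sets `A` and `B`, where `A` is Haar null
and `B` is meagre. -/
def HasHaarMeagrePartition (G : Type*) [Group G] [TopologicalSpace G] : Prop :=
  ∃ A B : Set G, IsHaarNull A ∧ IsMeagre B ∧ A ∪ B = univ ∧ Disjoint A B

/-- The group `X ≃ₜ X` of self-homeomorphisms carries the compact-open topology, i.e. the topology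
induced by the inclusion in the space `C(X, X)` of continuous maps with the compact-open topology
(for a compact metric space `X`, this is the topology of uniform convergence). -/
instance homeoTopology (X : Type*) [TopologicalSpace X] : TopologicalSpace (X ≃ₜ X) :=
  TopologicalSpace.induced (fun f => (⟨f, f.continuous⟩ : C(X, X))) inferInstance

/-- The underlying continuous map of a homeomorphism. -/
def toCM {X : Type*} [TopologicalSpace X] (f : X ≃ₜ X) : C(X, X) := ⟨f, f.continuous⟩

/-- The integral singular chain complex functor `X ↦ C_•(X; ℤ)`. -/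
noncomputable def singChains : TopCat.{0} ⥤ ChainComplex (ModuleCat.{0} ℤ) ℕ :=
  (singularChainComplexFunctor (ModuleCat.{0} ℤ)).obj (ModuleCat.of ℤ ℤ)

/-- Integral singular homology `X ↦ H_n(X; ℤ)`. -/
noncomputable def singHomology (n : ℕ) : TopCat.{0} ⥤ ModuleCat.{0} ℤ :=
  singChains ⋙ HomologicalComplex.homologyFunctor _ _ n

/-- Relative integral singular homology `H_n(X, A; ℤ)` of a map `i : A ⟶ X` (in the intended use
the inclusion of a subspace): the `n`-th homology of the cokernel of `C_•(A; ℤ) ⟶ C_•(X; ℤ)`. It is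
a functor on the category of maps and commutative squares, in particular on pairs of spaces and
maps of pairs. -/
noncomputable def relHomology (n : ℕ) : Arrow TopCat.{0} ⥤ ModuleCat.{0} ℤ :=
  singChains.mapArrow ⋙ coker _ ⋙ HomologicalComplex.homologyFunctor _ _ n

/-- A homeomorphism of a space, as an endomorphism in the category of topological spaces. -/
def homeoHom {X : Type} [TopologicalSpace X] (f : X ≃ₜ X) : TopCat.of X ⟶ TopCat.of X :=
  TopCat.ofHom (toCM f)

theorem homeoHom_one {X : Type} [TopologicalSpace X] : homeoHom (1 : X ≃ₜ X) = 𝟙 _ := rfl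

theorem homeoHom_mul {X : Type} [TopologicalSpace X] (f g : X ≃ₜ X) :
    homeoHom (f * g) = homeoHom g ≫ homeoHom f := rfl

/-- The group of homeomorphisms of `X` acting as the identity on `H_n(X; ℤ)`. -/
def actTrivially (X : Type) [TopologicalSpace X] (n : ℕ) : Subgroup (X ≃ₜ X) where
  carrier := {f | (singHomology n).map (homeoHom f) = 𝟙 _}
  one_mem' := (singHomology n).map_id _
  mul_mem' := by
    intro f g hf hg
    change (singHomology n).map (homeoHom f) = 𝟙 _ at hf
    change (singHomology n).map (homeoHom g) = 𝟙 _ at hg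
    change (singHomology n).map (homeoHom (f * g)) = 𝟙 _
    rw [homeoHom_mul, Functor.map_comp, hf, hg, Category.comp_id]
  inv_mem' := by
    intro f hf
    change (singHomology n).map (homeoHom f) = 𝟙 _ at hf
    change (singHomology n).map (homeoHom f⁻¹) = 𝟙 _
    have h : homeoHom f⁻¹ ≫ homeoHom f = 𝟙 _ := by
      rw [← homeoHom_mul, mul_inv_cancel, homeoHom_one]
    have h2 := congrArg (singHomology n).map h
    rwa [Functor.map_comp, hf, Category.comp_id, CategoryTheory.Functor.map_id] at h2

/-- For a topological embedding `i : A → X` (identifying `A` with the subspace `i(A)` of `X`), the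
group of those homeomorphisms `f` of `X` which map `A` onto itself and for which the map of pairs
`(X, A) → (X, A)` given by `f` acts as the identity on `H_n(X, A; ℤ)`. -/
def actTriviallyRel {A X : Type} [TopologicalSpace A] [TopologicalSpace X] (i : C(A, X))
    (hi : IsEmbedding i) (n : ℕ) : Subgroup (X ≃ₜ X) where
  carrier := {f | (∀ x, f x ∈ range i ↔ x ∈ range i) ∧
    ∃ e : Arrow.mk (TopCat.ofHom i) ⟶ Arrow.mk (TopCat.ofHom i),
      e.right = homeoHom f ∧ (relHomology n).map e = 𝟙 _}
  one_mem' := ⟨fun _ => Iff.rfl, 𝟙 _, rfl, (relHomology n).map_id _⟩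
  mul_mem' := by
    rintro f g ⟨hf, e, he, hef⟩ ⟨hg, e', he', heg⟩
    refine ⟨fun x => (hf (g x)).trans (hg x), e' ≫ e, ?_, ?_⟩
    · rw [Arrow.comp_right, he, he', homeoHom_mul]
    · rw [Functor.map_comp, hef, heg, Category.comp_id]
  inv_mem' := by
    rintro f ⟨hf, e, he, hef⟩
    have hf' : ∀ x, f⁻¹ x ∈ range i ↔ x ∈ range i := fun x => by
      rw [← hf (f⁻¹ x)]
      have : f (f⁻¹ x) = x := f.apply_symm_apply x
      rw [this]
    have hl : ∀ a : A, ∃ b : A, i b = f⁻¹ (i a) := fun a => (hf' (i a)).2 ⟨a, rfl⟩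
    choose l₀ hl₀ using hl
    have hc : Continuous l₀ := by
      rw [hi.continuous_iff]
      have : i ∘ l₀ = (f⁻¹ : X ≃ₜ X) ∘ i := funext hl₀
      rw [this]
      exact (f⁻¹).continuous.comp i.continuous
    let l : TopCat.of A ⟶ TopCat.of A := TopCat.ofHom ⟨l₀, hc⟩
    let e' : Arrow.mk (TopCat.ofHom i) ⟶ Arrow.mk (TopCat.ofHom i) :=
      Arrow.homMk l (homeoHom f⁻¹) (by ext a; exact hl₀ a)
    refine ⟨hf', e', rfl, ?_⟩
    have h : e' ≫ e = 𝟙 _ := by
      have hr : (e' ≫ e).right = 𝟙 _ := by
        rw [Arrow.comp_right, he]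
        change homeoHom f⁻¹ ≫ homeoHom f = 𝟙 _
        rw [← homeoHom_mul, mul_inv_cancel, homeoHom_one]
      have hl : (e' ≫ e).left = 𝟙 _ := by
        have hw := (e' ≫ e).w
        rw [hr] at hw
        ext x : 1
        apply hi.injective
        exact congr($hw x)
      ext
      · rw [hl]; rfl
      · rw [hr]; rfl
    have h2 := congrArg (relHomology n).map h
    rwa [Functor.map_comp, hef, Category.comp_id, CategoryTheory.Functor.map_id] at h2

/-- The closed unit ball `Dⁿ` of `ℝⁿ`. -/
def Disc (n : ℕ) : Type := closedBall (0 : EuclideanSpace ℝ (Fin n)) 1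

/-- The topology of `Dⁿ`. -/
instance (n : ℕ) : TopologicalSpace (Disc n) :=
  instTopologicalSpaceSubtype

/-- The boundary sphere `∂Dⁿ` of `Dⁿ`. -/
def Bdry (n : ℕ) : Type := sphere (0 : EuclideanSpace ℝ (Fin n)) 1

/-- The topology of `∂Dⁿ`. -/
instance (n : ℕ) : TopologicalSpace (Bdry n) :=
  instTopologicalSpaceSubtype

/-- The inclusion `∂Dⁿ → Dⁿ`. -/
def bdryIncl (n : ℕ) : C(Bdry n, Disc n) :=
  ⟨inclusion sphere_subset_closedBall, continuous_inclusion sphere_subset_closedBall⟩

theorem isEmbedding_bdryIncl (n : ℕ) : IsEmbedding (bdryIncl n) :=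
  IsEmbedding.inclusion (X := EuclideanSpace ℝ (Fin n)) sphere_subset_closedBall

/-- The unit sphere `Sⁿ` of `ℝⁿ⁺¹`. -/
def Sph (n : ℕ) : Type := sphere (0 : EuclideanSpace ℝ (Fin (n + 1))) 1

/-- The topology of `Sⁿ`. -/
instance (n : ℕ) : TopologicalSpace (Sph n) :=
  instTopologicalSpaceSubtype

/-- The group `H⁺(Sⁿ)` of orientation preserving homeomorphisms of the sphere `Sⁿ`, those acting
as the identity on `H_n(Sⁿ; ℤ)`. -/
def spherePlus (n : ℕ) : Subgroup (Sph n ≃ₜ Sph n) := actTrivially (Sph n) n

/-- The group `H⁺(Dⁿ)` of orientation preserving homeomorphisms of the ball `Dⁿ`: those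
homeomorphisms `f` of `Dⁿ` mapping `∂Dⁿ` onto itself (which is automatic by invariance of domain)
for which the map of pairs `(Dⁿ, ∂Dⁿ) → (Dⁿ, ∂Dⁿ)` given by `f` induces the identity of
`H_n(Dⁿ, ∂Dⁿ; ℤ)`. -/
def discPlus (n : ℕ) : Subgroup (Disc n ≃ₜ Disc n) :=
  actTriviallyRel (bdryIncl n) (isEmbedding_bdryIncl n) n

end Pool.Agent.Work.MP_4235af_lc
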