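import Mathlib

open MeasureTheory Topology Set
open scoped Pointwise

namespace Pool.Agent.Work.MP_4235af_lc

theorem exists_nhds_one_pow_subset {G : Type*} [Group G] [TopologicalSpace G]
    [IsTopologicalGroup G] (N : ℕ) : ∀ (V : Set G) (_ : V ∈ 𝓝 (1 : G)),
    ∃ W : Set G, IsOpen W ∧ (1 : G) ∈ W ∧ W ^ N ⊆ V := by
  induction N with
  | zero =>
    intro V hV
    refine ⟨univ, isOpen_univ, mem_univ _, ?_⟩
    rw [pow_zero]
    exact one_subset.2 (mem_of_mem_nhds hV)
  | succ N ih =>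
    intro V hV
    obtain ⟨V', hV'o, hV'1, hV'⟩ := exists_open_nhds_one_mul_subset hV
    obtain ⟨W, hWo, hW1, hW⟩ := ih V' (hV'o.mem_nhds hV'1)
    refine ⟨W ∩ V', hWo.inter hV'o, ⟨hW1, hV'1⟩, ?_⟩
    rw [pow_succ]
    exact (mul_subset_mul ((pow_subset_pow_left inter_subset_left).trans hW)
      inter_subset_right).trans hV'

/-- If `W` is a symmetric open neighbourhood of `1` in a connected group and `W ^ (n+1) = W ^ n`
then `W ^ n` is everything. -/
theorem pow_eq_univ_of_mul_subset {K : Type*} [Group K] [TopologicalSpace K]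
    [IsTopologicalGroup K] [ConnectedSpace K] (W : Set K) (hWo : IsOpen W) (hW1 : (1 : K) ∈ W)
    (hWinv : ∀ k ∈ W, k⁻¹ ∈ W) (n : ℕ) (hn : n ≠ 0) (h : W ^ (n + 1) ⊆ W ^ n) :
    W ^ n = univ := by
  have hHo : IsOpen (W ^ n) := by
    obtain ⟨m, rfl⟩ := Nat.exists_eq_succ_of_ne_zero hn
    rw [Nat.succ_eq_add_one, pow_succ]
    exact hWo.mul_left
  have hH1 : (1 : K) ∈ W ^ n := by
    have := pow_mem_pow hW1 (n := n)
    simpa using this
  have hcl : IsClosed (W ^ n) := by
    rw [← isOpen_compl_iff, isOpen_iff_mem_nhds]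
    intro x hx
    have hxW : x • W ∈ 𝓝 x := by
      have := smul_mem_nhds_smul x (hWo.mem_nhds hW1)
      simpa using this
    refine Filter.mem_of_superset hxW ?_
    rintro _ ⟨w, hw, rfl⟩ hmem
    refine hx (h ?_)
    rw [pow_succ]
    exact ⟨x • w, hmem, w⁻¹, hWinv w hw, by simp⟩
  exact IsClopen.eq_univ ⟨hcl, hHo⟩ ⟨1, hH1⟩

/-- Symmetric open neighbourhoods of the identity of Haar measure `> ε` in a compact connected
group generate the group in a number of steps bounded in terms of `ε`. -/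
theorem exists_pow_eq_univ {K : Type*} [Group K] [TopologicalSpace K]
    [IsTopologicalGroup K] [ConnectedSpace K] [MeasurableSpace K] [BorelSpace K]
    (ν : Measure K) [ν.IsMulLeftInvariant] (hν : ν univ = 1)
    (W : Set K) (hWo : IsOpen W) (hW1 : (1 : K) ∈ W)
    (hWinv : ∀ k ∈ W, k⁻¹ ∈ W) (r : ℕ) (hr : 1 < r * ν W) :
    ∃ m < r, W ^ (3 * m + 1) = univ := by
  by_contra hcon
  push Not at hcon
  have hex : ∀ m < r, ∃ y, y ∈ W ^ (3 * m + 1 + 1) ∧ y ∉ W ^ (3 * m + 1) := by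
    intro m hm
    by_contra hno
    push Not at hno
    exact hcon m hm (pow_eq_univ_of_mul_subset W hWo hW1 hWinv _ (by omega) hno)
  choose! y hy hy' using hex
  have hdisj : ∀ m m', m < m' → m' < r → Disjoint (y m • W) (y m' • W) := by
    intro m m' hmm' hm'
    rw [Set.disjoint_left]
    rintro _ ⟨w, hw, rfl⟩ ⟨w', hw', hww'⟩
    refine hy' m' hm' ?_
    have h1 : y m' = y m * w * w'⁻¹ := by
      simp only [smul_eq_mul] at hww'
      rw [← hww']
      group
    have h2 : y m' ∈ W ^ (3 * m + 1 + 1 + 1 + 1) := by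
      rw [pow_succ, pow_succ, h1]
      exact mul_mem_mul (mul_mem_mul (hy m (hmm'.trans hm')) hw) (hWinv _ hw')
    exact pow_subset_pow_right hW1 (by omega) h2
  have hpair : (↑(Finset.range r) : Set ℕ).Pairwise (Function.onFun Disjoint fun m => y m • W) := by
    intro a ha b hb hab
    simp only [Finset.coe_range, mem_Iio] at ha hb
    rcases lt_or_gt_of_ne hab with h | h
    · exact hdisj a b h hb
    · exact (hdisj b a h ha).symm
  have hsum : ∑ m ∈ Finset.range r, ν (y m • W) = ν (⋃ m ∈ Finset.range r, y m • W) :=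
    (measure_biUnion_finset hpair fun m _ => (hWo.smul (y m)).measurableSet).symm
  have hle : ν (⋃ m ∈ Finset.range r, y m • W) ≤ 1 := hν ▸ measure_mono (subset_univ _)
  have heq : ∀ m, ν (y m • W) = ν W := fun m => measure_smul ν (y m) W
  rw [← hsum] at hle
  simp only [heq, Finset.sum_const, Finset.card_range, nsmul_eq_mul] at hle
  exact absurd hr (not_lt.2 hle)

/-- Main group-theoretic lemma. -/
theorem exists_measure_small {G K : Type*} [Group G] [TopologicalSpace G] [IsTopologicalGroup G]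
    [Group K] [TopologicalSpace K] [IsTopologicalGroup K] [CompactSpace K] [ConnectedSpace K]
    (ι : K →* G) (hι : Continuous ι) (V : Set G) (hV : V ∈ 𝓝 (1 : G))
    (hconj : ∀ h : G, ∃ k : K, h * ι k * h⁻¹ ∉ V) :
    ∃ μ : @Measure G (borel G), μ univ = 1 ∧
      ∀ ε : ENNReal, 0 < ε → ∃ U : Set G, IsOpen U ∧ (1 : G) ∈ U ∧
      ∀ g h : G, μ ((fun x => g * x * h) '' U) ≤ ε := by
  let _ : MeasurableSpace G := borel G
  have _ : BorelSpace G := ⟨rfl⟩
  let _ : MeasurableSpace K := borel K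
  have _ : BorelSpace K := ⟨rfl⟩
  let ν : Measure K := Measure.haarMeasure ⊤
  have hν : ν univ = 1 := Measure.haarMeasure_self (K₀ := (⊤ : TopologicalSpace.PositiveCompacts K))
  have hιm : Measurable ι := hι.measurable
  refine ⟨ν.map ι, ?_, ?_⟩
  · rw [Measure.map_apply hιm MeasurableSet.univ, preimage_univ, hν]
  intro ε hε
  obtain ⟨r, hr⟩ := ENNReal.exists_nat_mul_gt hε.ne' (ENNReal.one_ne_top)
  obtain ⟨W, hWo, hW1, hWV⟩ := exists_nhds_one_pow_subset (3 * r + 1) V hV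
  obtain ⟨U₀, hU₀o, hU₀1, hU₀⟩ := exists_open_nhds_one_mul_subset (hWo.mem_nhds hW1)
  let U : Set G := U₀ ∩ U₀⁻¹
  have hUo : IsOpen U := hU₀o.inter hU₀o.inv
  have hU1 : (1 : G) ∈ U := ⟨hU₀1, by simpa using hU₀1⟩
  have hUU : U⁻¹ * U ⊆ W := by
    refine (mul_subset_mul ?_ inter_subset_left).trans hU₀
    intro x hx
    have := hx.2
    simpa using this
  refine ⟨U, hUo, hU1, fun g h => ?_⟩
  by_contra hlt
  rw [not_le] at hlt
  have hopen : IsOpen ((fun x => g * x * h) '' U) := by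
    have : (fun x => g * x * h) '' U = (fun x => x * h) '' ((fun x => g * x) '' U) := by
      rw [image_image]
    rw [this]
    exact (Homeomorph.mulRight h).isOpenMap _ ((Homeomorph.mulLeft g).isOpenMap _ hUo)
  rw [Measure.map_apply hιm hopen.measurableSet] at hlt
  set S : Set K := ι ⁻¹' ((fun x => g * x * h) '' U) with hS
  let φ : K →* G := (MulAut.conj h).toMonoidHom.comp ι
  have hφ : ∀ k, φ k = h * ι k * h⁻¹ := fun k => rfl
  have hφc : Continuous φ := by
    have : (φ : K → G) = fun k => h * ι k * h⁻¹ := funext hφ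
    rw [this]; fun_prop
  let W' : Set K := φ ⁻¹' (U⁻¹ * U)
  have hW'o : IsOpen W' := (hUo.mul_left).preimage hφc
  have hW'1 : (1 : K) ∈ W' := by
    change φ 1 ∈ U⁻¹ * U
    rw [map_one]
    exact ⟨1, by simpa using hU1, 1, hU1, by simp⟩
  have hW'inv : ∀ k ∈ W', k⁻¹ ∈ W' := by
    intro k hk
    change φ k⁻¹ ∈ U⁻¹ * U
    rw [map_inv]
    obtain ⟨a, ha, b, hb, hab⟩ := hk
    refine ⟨b⁻¹, by simpa using hb, a⁻¹, by simpa using ha, ?_⟩
    rw [← hab]; simp
  have hSne : S.Nonempty := by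
    by_contra hne
    rw [not_nonempty_iff_eq_empty] at hne
    rw [hne, measure_empty] at hlt
    exact absurd hlt (not_lt.2 hε.le)
  obtain ⟨s, hs⟩ := hSne
  have hsub : s⁻¹ • S ⊆ W' := by
    rintro _ ⟨k, hk, rfl⟩
    obtain ⟨u, hu, hus⟩ := hs
    obtain ⟨v, hv, hvk⟩ := hk
    change φ (s⁻¹ * k) ∈ U⁻¹ * U
    refine ⟨u⁻¹, by simpa using hu, v, hv, ?_⟩
    rw [hφ, map_mul, map_inv, ← hus, ← hvk]
    simp only
    group
  have hνW' : ε < ν W' := by
    refine hlt.trans_le ?_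
    rw [← measure_smul ν s⁻¹ S]
    exact measure_mono hsub
  have hr' : 1 < r * ν W' := hr.trans_le (by gcongr)
  obtain ⟨m, hm, hmu⟩ := exists_pow_eq_univ ν hν W' hW'o hW'1 hW'inv r hr'
  obtain ⟨k, hk⟩ := hconj h
  refine hk (hWV ?_)
  have hkm : k ∈ W' ^ (3 * m + 1) := hmu ▸ mem_univ k
  have h1 : φ k ∈ φ '' (W' ^ (3 * m + 1)) := mem_image_of_mem _ hkm
  rw [image_pow] at h1
  have h2 : (φ '' W') ^ (3 * m + 1) ⊆ W ^ (3 * m + 1) := by
    refine pow_subset_pow_left ?_
    exact (image_preimage_subset _ _).trans hUU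
  exact pow_subset_pow_right hW1 (by omega) (h2 h1)

end Pool.Agent.Work.MP_4235af_lc
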