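import Mathlib
import Pool.Agent.Work.MP_4235af_lc.Defs

open MeasureTheory Topology Set
open scoped Pointwise

namespace Pool.Agent.Work.MP_4235af_lc

/-- A set of elements in a topological group that is small under all two-sided translates in
measure gives a decomposition. -/
theorem exists_decomposition {G : Type*} [Group G] [TopologicalSpace G] [IsTopologicalGroup G]
    [SecondCountableTopology G] (μ : @Measure G (borel G)) (hμ : μ univ = 1)
    (hsmall : ∀ ε : ENNReal, 0 < ε → ∃ U : Set G, IsOpen U ∧ (1 : G) ∈ U ∧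
      ∀ g h : G, μ ((fun x => g * x * h) '' U) ≤ ε) :
    HasHaarMeagrePartition G := by
  obtain ⟨ε, hεpos, hεsum⟩ : ∃ ε : ℕ → ENNReal, (∀ n, 0 < ε n) ∧ ∑' n, ε n = 1 := by
    refine ⟨fun n => 2⁻¹ ^ (n + 1), fun n => ?_, ?_⟩
    · exact ENNReal.pow_pos (by simp) _
    · rw [ENNReal.tsum_geometric_add_one, ENNReal.one_sub_inv_two, inv_inv]
      exact ENNReal.inv_mul_cancel (by simp) (by simp)
  -- dense sequence
  have hne : Nonempty G := ⟨1⟩
  let q : ℕ → G := TopologicalSpace.denseSeq G
  have hq : DenseRange q := TopologicalSpace.denseRange_denseSeq G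
  have hεpos' : ∀ j m : ℕ, 0 < ((j : ENNReal) + 1)⁻¹ * ε m := fun j m => by
    refine ENNReal.mul_pos ?_ (hεpos m).ne'
    simp [ENNReal.inv_eq_zero, ENNReal.add_eq_top]
  choose U hUo hU1 hUμ using fun j m : ℕ => hsmall _ (hεpos' j m)
  let W : ℕ → Set G := fun j => ⋃ m, (fun x => q m * x) '' U j m
  have hWo : ∀ j, IsOpen (W j) := fun j => isOpen_iUnion fun m => by
    exact (Homeomorph.mulLeft (q m)).isOpenMap _ (hUo j m)
  have hWd : ∀ j, Dense (W j) := fun j => by
    refine hq.mono ?_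
    rintro _ ⟨m, rfl⟩
    exact mem_iUnion.2 ⟨m, 1, hU1 j m, by simp⟩
  have hWμ : ∀ j (g h : G), μ ((fun x => g * x * h) '' W j) ≤ ((j : ENNReal) + 1)⁻¹ := by
    intro j g h
    have : (fun x => g * x * h) '' W j = ⋃ m, (fun x => (g * q m) * x * h) '' U j m := by
      simp only [W, image_iUnion]
      refine iUnion_congr fun m => ?_
      rw [image_image]
      simp only [mul_assoc]
    rw [this]
    calc μ (⋃ m, (fun x => (g * q m) * x * h) '' U j m)
        ≤ ∑' m, μ ((fun x => (g * q m) * x * h) '' U j m) := measure_iUnion_le _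
      _ ≤ ∑' m, ((j : ENNReal) + 1)⁻¹ * ε m := ENNReal.tsum_le_tsum fun m => hUμ j m _ _
      _ = ((j : ENNReal) + 1)⁻¹ := by rw [ENNReal.tsum_mul_left, hεsum, mul_one]
  let A : Set G := ⋂ j, W j
  refine ⟨A, Aᶜ, ⟨A, μ, subset_rfl, ?_, hμ, ?_⟩, ?_, union_compl_self A, disjoint_compl_right⟩
  · let _ : MeasurableSpace G := borel G
    have _ : BorelSpace G := ⟨rfl⟩
    exact MeasurableSet.iInter fun j => (hWo j).measurableSet
  · intro g h
    have hle : ∀ j : ℕ, μ ((fun x => g * x * h) '' A) ≤ ((j : ENNReal) + 1)⁻¹ := fun j =>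
      (measure_mono (image_mono (iInter_subset _ j))).trans (hWμ j g h)
    have hlim : Filter.Tendsto (fun j : ℕ => ((j : ENNReal) + 1)⁻¹) Filter.atTop (𝓝 0) := by
      have := ENNReal.tendsto_inv_nat_nhds_zero.comp (Filter.tendsto_add_atTop_nat 1)
      refine this.congr fun j => ?_
      simp
    exact le_antisymm (ge_of_tendsto' hlim hle) zero_le
  · rw [IsMeagre, compl_compl]
    exact countable_iInter_mem.2 fun j => residual_of_dense_open (hWo j) (hWd j)

end Pool.Agent.Work.MP_4235af_lc
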