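import Mathlib
import Pool.Agent.Work.MP_4235af_lc.Defs

open Topology Set Metric

namespace Pool.Agent.Work.MP_4235af_lc

@[simp] theorem toCM_apply {X : Type*} [TopologicalSpace X] (f : X ≃ₜ X) (x : X) :
    toCM f x = f x := rfl

theorem isInducing_toCM (X : Type*) [TopologicalSpace X] :
    IsInducing (toCM : (X ≃ₜ X) → C(X, X)) := ⟨rfl⟩

theorem continuous_toCM (X : Type*) [TopologicalSpace X] :
    Continuous (toCM : (X ≃ₜ X) → C(X, X)) := (isInducing_toCM X).continuous

instance (X : Type*) [TopologicalSpace X] [CompactSpace X] [T2Space X] :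
    IsTopologicalGroup (X ≃ₜ X) where
  continuous_mul := by
    rw [(isInducing_toCM X).continuous_iff]
    have h : (toCM ∘ fun p : (X ≃ₜ X) × (X ≃ₜ X) => p.1 * p.2) =
        fun p => (toCM p.1).comp (toCM p.2) := rfl
    rw [h]
    exact ((continuous_toCM X).comp continuous_fst).compCM ((continuous_toCM X).comp continuous_snd)
  continuous_inv := by
    rw [(isInducing_toCM X).continuous_iff, ContinuousMap.continuous_compactOpen]
    intro K hK U hU
    have h : {f : X ≃ₜ X | MapsTo ((toCM ∘ fun a : X ≃ₜ X => a⁻¹) f) K U} =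
        toCM ⁻¹' {g : C(X, X) | MapsTo g Uᶜ Kᶜ} := by
      ext f
      simp only [mem_ofPred_eq, mem_preimage]
      constructor
      · intro hf x hx hfx
        refine hx ?_
        have := hf hfx
        simpa using this
      · intro hf y hy
        by_contra hcon
        exact hf hcon (by simpa using hy)
    rw [h]
    exact (ContinuousMap.isOpen_setOfPred_mapsTo hU.isClosed_compl.isCompact
      hK.isClosed.isOpen_compl).preimage (continuous_toCM X)

instance (X : Type*) [TopologicalSpace X] [SecondCountableTopology X] [LocallyCompactSpace X] :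
    SecondCountableTopology (X ≃ₜ X) :=
  (isInducing_toCM X).secondCountableTopology

theorem setOf_dist_lt_mem_nhds (X : Type*) [MetricSpace X] [CompactSpace X] (c : ℝ) (hc : 0 < c) :
    {f : X ≃ₜ X | ∀ x, dist (f x) x < c} ∈ 𝓝 (1 : X ≃ₜ X) := by
  have h : {f : X ≃ₜ X | ∀ x, dist (f x) x < c} = toCM ⁻¹' ball (ContinuousMap.id X) c := by
    ext f
    simp only [mem_ofPred_eq, mem_preimage, mem_ball]
    rw [ContinuousMap.dist_lt_iff hc]
    rfl
  rw [h]
  refine (continuous_toCM X).continuousAt.preimage_mem_nhds ?_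
  exact ball_mem_nhds (toCM (1 : X ≃ₜ X)) hc

end Pool.Agent.Work.MP_4235af_lc
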