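import Mathlib

open Topology Set Metric
open scoped InnerProductSpace

namespace Pool.Agent.Work.MP_4235af_lc

variable {E : Type*} [NormedAddCommGroup E] [InnerProductSpace ℝ E] [CompleteSpace E]

/-- `x ↦ x - 2 ⟪u, x⟫ u`. -/
noncomputable def reflMap (u : E) : E →L[ℝ] E :=
  ContinuousLinearMap.id ℝ E - (2 : ℝ) • (innerSL ℝ u).smulRight u

omit [CompleteSpace E] in
theorem reflMap_apply (u x : E) : reflMap u x = x - (2 * ⟪u, x⟫_ℝ) • u := by
  simp [reflMap, smul_smul]

omit [CompleteSpace E] in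
theorem continuous_reflMap : Continuous (reflMap : E → (E →L[ℝ] E)) := by
  unfold reflMap
  have h1 : Continuous fun u : E => (innerSL ℝ u).smulRight u := by
    have := (ContinuousLinearMap.smulRightL ℝ E E).continuous₂
    exact this.comp ((innerSL ℝ (E := E)).continuous.prodMk continuous_id)
  fun_prop

omit [CompleteSpace E] in
theorem norm_reflMap (u : E) (hu : ‖u‖ = 1) (x : E) : ‖reflMap u x‖ = ‖x‖ := by
  rw [reflMap_apply]
  have h : ‖x - (2 * ⟪u, x⟫_ℝ) • u‖ ^ 2 = ‖x‖ ^ 2 := by
    rw [norm_sub_sq_real, norm_smul, inner_smul_right, real_inner_comm u x, hu]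
    rw [Real.norm_eq_abs, mul_one, sq_abs]
    ring
  exact (pow_left_inj₀ (norm_nonneg _) (norm_nonneg _) two_ne_zero).1 h

omit [CompleteSpace E] in
theorem reflMap_reflMap (u : E) (hu : ‖u‖ = 1) (x : E) : reflMap u (reflMap u x) = x := by
  rw [reflMap_apply, reflMap_apply, inner_sub_right, inner_smul_right,
    real_inner_self_eq_norm_sq, hu]
  module

/-- The reflection as an element of the orthogonal group. -/
noncomputable def refl (u : sphere (0 : E) 1) : unitary (E →L[ℝ] E) :=
  ⟨reflMap (u : E), by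
    have hu : ‖(u : E)‖ = 1 := by simp
    have h1 : star (reflMap (u : E)) * reflMap (u : E) = 1 := by
      have := (ContinuousLinearMap.norm_map_iff_adjoint_comp_self (reflMap (u : E))).1
        (norm_reflMap _ hu)
      exact this
    have h2 : reflMap (u : E) * reflMap (u : E) = 1 := by
      ext x
      simpa using reflMap_reflMap _ hu x
    have h3 : star (reflMap (u : E)) = reflMap (u : E) := by
      calc star (reflMap (u : E)) = star (reflMap (u : E)) * (reflMap (u : E) * reflMap (u : E)) := by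
            rw [h2, mul_one]
        _ = reflMap (u : E) := by rw [← mul_assoc, h1, one_mul]
    rw [Unitary.mem_iff]
    exact ⟨h1, by rw [h3, h2]⟩⟩

theorem refl_mul_self (u : sphere (0 : E) 1) : refl u * refl u = 1 := by
  ext x
  have hu : ‖(u : E)‖ = 1 := by simp
  simpa [refl] using reflMap_reflMap _ hu x

theorem continuous_refl : Continuous (refl : sphere (0 : E) 1 → unitary (E →L[ℝ] E)) :=
  Continuous.subtype_mk (continuous_reflMap.comp continuous_subtype_val) _

/-- Rotation group: identity component of the orthogonal group. -/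
noncomputable abbrev Rot (E : Type*) [NormedAddCommGroup E] [InnerProductSpace ℝ E]
    [CompleteSpace E] : Subgroup (unitary (E →L[ℝ] E)) :=
  Subgroup.connectedComponentOfOne (unitary (E →L[ℝ] E))

theorem refl_mul_refl_mem (hE : 1 < Module.rank ℝ E) (u v : sphere (0 : E) 1) :
    refl u * refl v ∈ Rot E := by
  have hconn : IsPreconnected (univ : Set (sphere (0 : E) 1 × sphere (0 : E) 1)) := by
    have : PreconnectedSpace (sphere (0 : E) 1) :=
      isPreconnected_iff_preconnectedSpace.1 (isPreconnected_sphere hE 0 1)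
    exact isPreconnected_univ
  have him := hconn.image (fun p : sphere (0 : E) 1 × sphere (0 : E) 1 => refl p.1 * refl p.2)
    (by have := continuous_refl (E := E); fun_prop)
  have h1 : (1 : unitary (E →L[ℝ] E)) ∈
      (fun p : sphere (0 : E) 1 × sphere (0 : E) 1 => refl p.1 * refl p.2) '' univ :=
    ⟨(u, u), mem_univ _, refl_mul_self u⟩
  exact him.subset_connectedComponent h1 ⟨(u, v), mem_univ _, rfl⟩

/-- The rotation group acts transitively on spheres. -/
theorem exists_rot (hE : 1 < Module.rank ℝ E) (a b : E) (hab : ‖a‖ = ‖b‖) :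
    ∃ k ∈ Rot E, (k : E →L[ℝ] E) a = b := by
  by_cases h : a = b
  · exact ⟨1, one_mem _, by simp [h]⟩
  obtain ⟨v, hv⟩ : ∃ v : sphere (0 : E) 1, ⟪(v : E), a⟫_ℝ = 0 := by
    have hne : (ℝ ∙ a)ᗮ ≠ ⊥ := by
      intro hbot
      rw [Submodule.orthogonal_eq_bot_iff] at hbot
      have := rank_span_le ({a} : Set E) (R := ℝ)
      rw [hbot, rank_top] at this
      simp only [Cardinal.mk_fintype, Fintype.card_unique, Nat.cast_one] at this
      exact absurd hE (not_lt.2 this)
    obtain ⟨w, hw, hw0⟩ := Submodule.exists_mem_ne_zero_of_ne_bot hne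
    refine ⟨⟨(‖w‖⁻¹ : ℝ) • w, by simp [norm_smul, hw0]⟩, ?_⟩
    rw [inner_smul_left, real_inner_comm, Submodule.mem_orthogonal_singleton_iff_inner_right.1 hw]
    simp
  have hab0 : a - b ≠ 0 := sub_ne_zero.2 h
  let u : sphere (0 : E) 1 := ⟨(‖a - b‖⁻¹ : ℝ) • (a - b), by simp [norm_smul, hab0]⟩
  refine ⟨refl u * refl v, refl_mul_refl_mem hE u v, ?_⟩
  have hva : reflMap (v : E) a = a := by rw [reflMap_apply, hv]; simp
  change reflMap (u : E) (reflMap (v : E) a) = b
  rw [hva, reflMap_apply]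
  change a - (2 * ⟪(‖a - b‖⁻¹ : ℝ) • (a - b), a⟫_ℝ) • (‖a - b‖⁻¹ : ℝ) • (a - b) = b
  rw [inner_smul_left, smul_smul]
  have hn : ‖a - b‖ ≠ 0 := norm_ne_zero_iff.2 hab0
  have h2 : 2 * ⟪a - b, a⟫_ℝ = ‖a - b‖ ^ 2 := by
    rw [norm_sub_sq_real, ← hab, inner_sub_left, real_inner_self_eq_norm_sq, real_inner_comm b a]
    ring
  have h3 : 2 * ((starRingEnd ℝ) ‖a - b‖⁻¹ * ⟪a - b, a⟫_ℝ) * ‖a - b‖⁻¹ = 1 := by
    simp only [conj_trivial]
    calc 2 * (‖a - b‖⁻¹ * ⟪a - b, a⟫_ℝ) * ‖a - b‖⁻¹ = (2 * ⟪a - b, a⟫_ℝ) * (‖a - b‖⁻¹) ^ 2 := by ring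
      _ = 1 := by rw [h2, ← mul_pow, mul_inv_cancel₀ hn, one_pow]
  rw [h3, one_smul]
  abel

/-- The orthogonal group is compact in finite dimension. -/
theorem isCompact_unitary [FiniteDimensional ℝ E] :
    IsCompact (unitary (E →L[ℝ] E) : Set (E →L[ℝ] E)) := by
  have : ProperSpace (E →L[ℝ] E) := FiniteDimensional.proper_real _
  refine Metric.isCompact_of_isClosed_isBounded isClosed_unitary ?_
  refine (Metric.isBounded_closedBall (x := (0 : E →L[ℝ] E)) (r := 1)).subset ?_
  intro u hu
  rw [mem_closedBall_zero_iff]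
  refine ContinuousLinearMap.opNorm_le_bound _ zero_le_one fun x => ?_
  rw [one_mul, ContinuousLinearMap.norm_map_of_mem_unitary hu]

instance [FiniteDimensional ℝ E] : CompactSpace (unitary (E →L[ℝ] E)) :=
  isCompact_iff_compactSpace.1 isCompact_unitary

instance [FiniteDimensional ℝ E] : CompactSpace (Rot E) :=
  isCompact_iff_compactSpace.1 (isClosed_connectedComponent.isCompact)

instance : ConnectedSpace (Rot E) :=
  isConnected_iff_connectedSpace.1 isConnected_connectedComponent

end Pool.Agent.Work.MP_4235af_lc
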