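import Mathlib
import Pool.Agent.Work.MP_4235af_lc.HomeoTop
import Pool.Agent.Work.MP_4235af_lc.Orth
import Pool.Agent.Work.MP_4235af_lc.Compact
import Pool.Agent.Work.MP_4235af_lc.Decomp

open Topology Set Metric

namespace Pool.Agent.Work.MP_4235af_lc

variable {E : Type*} [NormedAddCommGroup E] [InnerProductSpace ℝ E] [CompleteSpace E]

/-- The orthogonal group acts on every subset described by a condition on norms. -/
noncomputable def act (s : Set E) (hs : ∀ x y : E, ‖x‖ = ‖y‖ → x ∈ s → y ∈ s) :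
    unitary (E →L[ℝ] E) →* (s ≃ₜ s) where
  toFun u :=
    { toFun := fun x => ⟨(u : E →L[ℝ] E) x, hs x _ (Unitary.norm_map u x).symm x.2⟩
      invFun := fun x => ⟨((star u : unitary (E →L[ℝ] E)) : E →L[ℝ] E) x,
        hs x _ (Unitary.norm_map (star u) x).symm x.2⟩
      left_inv := fun x => Subtype.ext congr($(Unitary.star_mul_self u).val x)
      right_inv := fun x => Subtype.ext congr($(Unitary.mul_star_self u).val x)
      continuous_toFun := by fun_prop
      continuous_invFun := by fun_prop }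
  map_one' := by ext x; rfl
  map_mul' u v := by ext x; rfl

@[simp] theorem act_apply (s : Set E) (hs : ∀ x y : E, ‖x‖ = ‖y‖ → x ∈ s → y ∈ s)
    (u : unitary (E →L[ℝ] E)) (x : s) : ((act s hs u x : s) : E) = (u : E →L[ℝ] E) x := rfl

theorem continuous_act (s : Set E) (hs : ∀ x y : E, ‖x‖ = ‖y‖ → x ∈ s → y ∈ s) :
    Continuous (act s hs) := by
  rw [(isInducing_toCM s).continuous_iff]
  refine ContinuousMap.continuous_of_continuous_uncurry _ ?_
  refine Continuous.subtype_mk ?_ _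
  change Continuous fun p : unitary (E →L[ℝ] E) × s => (p.1 : E →L[ℝ] E) (p.2 : E)
  fun_prop

/-- The abstract decomposition theorem for groups of homeomorphisms of `s` containing rotations. -/
theorem decomposition_of_rot [FiniteDimensional ℝ E] (s : Set E)
    (hs : ∀ x y : E, ‖x‖ = ‖y‖ → x ∈ s → y ∈ s) [CompactSpace s]
    (G : Subgroup (s ≃ₜ s)) (hG : ∀ k ∈ Rot E, act s hs k ∈ G)
    (hbig : ∀ h : s ≃ₜ s, ∃ k ∈ Rot E, ∃ x : s, 1 ≤ dist (h (act s hs k (h.symm x))) x) :
    HasHaarMeagrePartition G := by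
  have h1 : SecondCountableTopology s := inferInstance
  have h2 : SecondCountableTopology (s ≃ₜ s) := inferInstance
  have h3 : SecondCountableTopology G :=
    TopologicalSpace.Subtype.secondCountableTopology (G : Set (s ≃ₜ s))
  let ι : Rot E →* G :=
    ((act s hs).comp (Rot E).subtype).codRestrict G fun k => hG k k.2
  have hι : Continuous ι :=
    Continuous.subtype_mk ((continuous_act s hs).comp continuous_subtype_val) _
  let V : Set G := {f | ∀ x, dist ((f : s ≃ₜ s) x) x < 1}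
  have hV : V ∈ 𝓝 (1 : G) := by
    have h0 : Continuous (Subtype.val : G → (s ≃ₜ s)) := continuous_subtype_val
    have h1 : {f : s ≃ₜ s | ∀ x, dist (f x) x < 1} ∈ 𝓝 ((1 : G) : s ≃ₜ s) :=
      setOf_dist_lt_mem_nhds s 1 one_pos
    exact h0.continuousAt.preimage_mem_nhds h1
  have hconj : ∀ h : G, ∃ k : Rot E, h * ι k * h⁻¹ ∉ V := by
    intro h
    obtain ⟨k, hk, x, hx⟩ := hbig h
    refine ⟨⟨k, hk⟩, fun hmem => ?_⟩
    exact absurd (hmem x) (not_lt.2 hx)
  obtain ⟨μ, hμ, hsmall⟩ := exists_measure_small ι hι V hV hconj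
  exact exists_decomposition μ hμ hsmall

omit [InnerProductSpace ℝ E] [CompleteSpace E] in
theorem mem_sphere_of_norm_eq (r : ℝ) (x y : E) (h : ‖x‖ = ‖y‖) (hx : x ∈ sphere (0 : E) r) :
    y ∈ sphere (0 : E) r := by
  rw [mem_sphere_zero_iff_norm] at hx ⊢
  rw [← h, hx]

omit [InnerProductSpace ℝ E] [CompleteSpace E] in
theorem mem_closedBall_of_norm_eq (r : ℝ) (x y : E) (h : ‖x‖ = ‖y‖)
    (hx : x ∈ closedBall (0 : E) r) : y ∈ closedBall (0 : E) r := by
  rw [mem_closedBall_zero_iff] at hx ⊢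
  rwa [← h]

theorem decomposition_sphere [FiniteDimensional ℝ E] (hE : 1 < Module.rank ℝ E)
    (G : Subgroup (sphere (0 : E) 1 ≃ₜ sphere (0 : E) 1))
    (hG : ∀ k ∈ Rot E, act (sphere (0 : E) 1) (mem_sphere_of_norm_eq 1) k ∈ G) :
    HasHaarMeagrePartition G := by
  have : CompactSpace (sphere (0 : E) 1) := isCompact_iff_compactSpace.1 (isCompact_sphere _ _)
  refine decomposition_of_rot (sphere (0 : E) 1) (mem_sphere_of_norm_eq 1) G hG fun h => ?_
  have hne : (sphere (0 : E) 1).Nonempty := (isConnected_sphere hE 0 zero_le_one).nonempty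
  obtain ⟨x₀, hx₀⟩ := hne
  let x : sphere (0 : E) 1 := ⟨x₀, hx₀⟩
  have hx : ‖(x : E)‖ = 1 := by simp
  let y : sphere (0 : E) 1 := h.symm (-x)
  obtain ⟨k, hk, hky⟩ := exists_rot hE (h.symm x : E) (y : E) (by simp)
  refine ⟨k, hk, x, ?_⟩
  have h1 : act (sphere (0 : E) 1) (mem_sphere_of_norm_eq 1) k (h.symm x) = y := Subtype.ext hky
  rw [h1, Homeomorph.apply_symm_apply, Subtype.dist_eq, dist_eq_norm]
  have h2 : ((-x : sphere (0 : E) 1) : E) - x = (-2 : ℝ) • (x : E) := by
    rw [coe_neg_sphere]; module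
  rw [h2, norm_smul, hx]
  norm_num

theorem decomposition_ball [FiniteDimensional ℝ E] (hE : 1 < Module.rank ℝ E)
    (G : Subgroup (closedBall (0 : E) 1 ≃ₜ closedBall (0 : E) 1))
    (hG : ∀ k ∈ Rot E, act (closedBall (0 : E) 1) (mem_closedBall_of_norm_eq 1) k ∈ G) :
    HasHaarMeagrePartition G := by
  have : CompactSpace (closedBall (0 : E) 1) :=
    isCompact_iff_compactSpace.1 (isCompact_closedBall _ _)
  refine decomposition_of_rot (closedBall (0 : E) 1) (mem_closedBall_of_norm_eq 1) G hG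
    fun h => ?_
  -- a point `x` of the boundary sphere with `‖h⁻¹ x‖ = ‖h⁻¹ (-x)‖`
  let j : sphere (0 : E) 1 → closedBall (0 : E) 1 := fun x => ⟨x, sphere_subset_closedBall x.2⟩
  have hj : Continuous j := by fun_prop
  let F : sphere (0 : E) 1 → ℝ := fun x => ‖((h.symm (j x) : closedBall (0 : E) 1) : E)‖ -
    ‖((h.symm (j (-x)) : closedBall (0 : E) 1) : E)‖
  have hF : Continuous F := by
    have h1 : Continuous fun x : sphere (0 : E) 1 => j (-x) := hj.comp continuous_neg
    have h2 := (h.symm.continuous.comp hj)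
    have h3 := (h.symm.continuous.comp h1)
    exact (continuous_subtype_val.comp h2).norm.sub (continuous_subtype_val.comp h3).norm
  have hodd : ∀ x, F (-x) = - F x := fun x => by simp [F]
  have hconn : ConnectedSpace (sphere (0 : E) 1) :=
    isConnected_iff_connectedSpace.1 (isConnected_sphere hE 0 zero_le_one)
  obtain ⟨x₀⟩ : Nonempty (sphere (0 : E) 1) := inferInstance
  obtain ⟨x, hx⟩ : ∃ x, F x = 0 := by
    rcases le_total (F x₀) 0 with h0 | h0
    · exact mem_range_of_exists_le_of_exists_ge hF ⟨x₀, h0⟩ ⟨-x₀, by rw [hodd]; linarith⟩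
    · exact mem_range_of_exists_le_of_exists_ge hF ⟨-x₀, by rw [hodd]; linarith⟩ ⟨x₀, h0⟩
  have hxn : ‖((h.symm (j x) : closedBall (0 : E) 1) : E)‖ =
    ‖((h.symm (j (-x)) : closedBall (0 : E) 1) : E)‖ := sub_eq_zero.1 hx
  obtain ⟨k, hk, hky⟩ := exists_rot hE _ _ hxn
  refine ⟨k, hk, j x, ?_⟩
  have h1 : act (closedBall (0 : E) 1) (mem_closedBall_of_norm_eq 1) k (h.symm (j x)) =
    h.symm (j (-x)) := Subtype.ext hky
  rw [h1, Homeomorph.apply_symm_apply, Subtype.dist_eq, dist_eq_norm]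
  have h2 : ((j (-x) : closedBall (0 : E) 1) : E) - (j x : closedBall (0 : E) 1) =
      (-2 : ℝ) • (x : E) := by
    change ((-x : sphere (0 : E) 1) : E) - x = _
    rw [coe_neg_sphere]; module
  have hx1 : ‖(x : E)‖ = 1 := by simp
  rw [h2, norm_smul, hx1]
  norm_num

end Pool.Agent.Work.MP_4235af_lc
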