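import Mathlib
import Pool.Agent.Work.MP_4235af_lc.Defs

open CategoryTheory Limits AlgebraicTopology

namespace Pool.Agent.Work.MP_4235af_lc

theorem singHomology_map_eq_of_homotopy {X Y : TopCat.{0}} {f g : X ⟶ Y}
    (H : TopCat.Homotopy f g) (n : ℕ) : (singHomology n).map f = (singHomology n).map g :=
  H.congr_homologyMap_singularChainComplexFunctor (ModuleCat.of ℤ ℤ) n

instance : singChains.PreservesMonomorphisms :=
  inferInstanceAs (((singularChainComplexFunctor (ModuleCat.{0} ℤ)).obj
    (ModuleCat.of ℤ ℤ)).PreservesMonomorphisms)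

theorem isZero_singHomology_of_contractible (X : TopCat.{0}) [ContractibleSpace X] (n : ℕ)
    (hn : n ≠ 0) : IsZero ((singHomology n).obj X) := by
  obtain ⟨e⟩ := ContractibleSpace.hequiv_unit' (X := X)
  let P : TopCat.{0} := TopCat.of Unit
  let f : X ⟶ P := TopCat.ofHom e.toFun
  let g : P ⟶ X := TopCat.ofHom e.invFun
  have hP : IsZero ((singHomology n).obj P) :=
    isZero_singularHomologyFunctor_of_totallyDisconnectedSpace (ModuleCat.{0} ℤ) n
      (ModuleCat.of ℤ ℤ) P hn
  obtain ⟨H⟩ := e.left_inv
  have h1 : (singHomology n).map (f ≫ g) = (singHomology n).map (𝟙 X) :=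
    singHomology_map_eq_of_homotopy (f := f ≫ g) (g := 𝟙 X) H n
  rw [CategoryTheory.Functor.map_comp, CategoryTheory.Functor.map_id] at h1
  rw [IsZero.iff_id_eq_zero, ← h1, hP.eq_zero_of_tgt ((singHomology n).map f), zero_comp]

theorem relHomology_map_eq_id {A X : TopCat.{0}} (i : A ⟶ X) [Mono i] (n : ℕ)
    (hX : IsZero ((singHomology (n + 1)).obj X)) (e : Arrow.mk i ⟶ Arrow.mk i)
    (he : (singHomology n).map e.left = 𝟙 _) :
    (relHomology (n + 1)).map e = 𝟙 _ := by
  let S : ShortComplex (ChainComplex (ModuleCat.{0} ℤ) ℕ) :=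
    ShortComplex.mk (singChains.map i) (cokernel.π (singChains.map i)) (cokernel.condition _)
  have : Mono (singChains.map i) := inferInstance
  have hS : S.ShortExact := by
    have hex : S.Exact := ShortComplex.exact_cokernel (singChains.map i)
    have : Mono S.f := this
    have : Epi S.g := inferInstanceAs (Epi (cokernel.π (singChains.map i)))
    exact ShortComplex.ShortExact.mk hex
  have hij : (ComplexShape.down ℕ).Rel (n + 1) n := by simp
  have hmono : Mono (hS.δ (n + 1) n hij) := hS.mono_δ (n + 1) n hij hX
  let φ : S ⟶ S :=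
    { τ₁ := singChains.map e.left
      τ₂ := singChains.map e.right
      τ₃ := (coker _).map (singChains.mapArrow.map e)
      comm₁₂ := by
        change singChains.map e.left ≫ singChains.map i = singChains.map i ≫ singChains.map e.right
        rw [← CategoryTheory.Functor.map_comp, ← CategoryTheory.Functor.map_comp]
        congr 1
        exact e.w
      comm₂₃ := by
        change singChains.map e.right ≫ cokernel.π (singChains.map i) =
          cokernel.π (singChains.map i) ≫ (coker _).map (singChains.mapArrow.map e)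
        exact (cokernel.π_desc _ _ _).symm }
  have hnat := HomologicalComplex.HomologySequence.δ_naturality φ hS hS (n + 1) n hij
  have hτ₁ : HomologicalComplex.homologyMap φ.τ₁ n = 𝟙 _ := he
  rw [hτ₁, Category.comp_id] at hnat
  have : HomologicalComplex.homologyMap φ.τ₃ (n + 1) = 𝟙 _ := by
    rw [← cancel_mono (hS.δ (n + 1) n hij), ← hnat, Category.id_comp]
  exact this

end Pool.Agent.Work.MP_4235af_lc
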