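import Mathlib
import Pool.Agent.Work.MP_4235af_lc.Defs
import Pool.Agent.Work.MP_4235af_lc.Act
import Pool.Agent.Work.MP_4235af_lc.Homology

open MeasureTheory Topology Set Metric CategoryTheory Limits AlgebraicTopology

namespace Pool.Agent.Work.MP_4235af_lc

variable {E : Type} [NormedAddCommGroup E] [InnerProductSpace ℝ E] [CompleteSpace E]

/-- An orthogonal map moving every point of the unit sphere by less than `1` is homotopic to the
identity on the sphere. -/
noncomputable def homotopyOfNear (u : unitary (E →L[ℝ] E))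
    (hpos : ∀ (t : unitInterval) (x : sphere (0 : E) 1),
      (x : E) + (t : ℝ) • ((u : E →L[ℝ] E) x - x) ≠ 0) :
    ContinuousMap.Homotopy (toCM (1 : sphere (0 : E) 1 ≃ₜ sphere (0 : E) 1))
      (toCM (act (sphere (0 : E) 1) (mem_sphere_of_norm_eq 1) u)) where
  toFun := fun p => ⟨(‖(p.2 : E) + (p.1 : ℝ) • ((u : E →L[ℝ] E) p.2 - p.2)‖⁻¹ : ℝ) •
      ((p.2 : E) + (p.1 : ℝ) • ((u : E →L[ℝ] E) p.2 - p.2)), by
      rw [mem_sphere_zero_iff_norm, norm_smul, norm_inv, norm_norm,
        inv_mul_cancel₀ (norm_ne_zero_iff.2 (hpos p.1 p.2))]⟩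
  continuous_toFun := by
    have h1 : Continuous fun p : unitInterval × sphere (0 : E) 1 =>
        (p.2 : E) + (p.1 : ℝ) • ((u : E →L[ℝ] E) p.2 - p.2) := by fun_prop
    exact Continuous.subtype_mk ((h1.norm.inv₀ fun p =>
      norm_ne_zero_iff.2 (hpos p.1 p.2)).smul h1) _
  map_zero_left := fun x => by
    refine Subtype.ext ?_
    have hx : ‖(x : E)‖ = 1 := mem_sphere_zero_iff_norm.1 x.2
    change (‖(x : E) + (0 : ℝ) • ((u : E →L[ℝ] E) x - x)‖⁻¹ : ℝ) •
      ((x : E) + (0 : ℝ) • ((u : E →L[ℝ] E) x - x)) = x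
    rw [zero_smul, add_zero, hx, inv_one, one_smul]
  map_one_left := fun x => by
    refine Subtype.ext ?_
    have hx : ‖(x : E)‖ = 1 := mem_sphere_zero_iff_norm.1 x.2
    change (‖(x : E) + (1 : ℝ) • ((u : E →L[ℝ] E) x - x)‖⁻¹ : ℝ) •
      ((x : E) + (1 : ℝ) • ((u : E →L[ℝ] E) x - x)) = (u : E →L[ℝ] E) x
    rw [one_smul, add_sub_cancel, Unitary.norm_map, hx, inv_one, one_smul]

theorem pos_of_near (u : unitary (E →L[ℝ] E)) (hu : ‖(u : E →L[ℝ] E) - 1‖ < 1)
    (t : unitInterval) (x : sphere (0 : E) 1) :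
    (x : E) + (t : ℝ) • ((u : E →L[ℝ] E) x - x) ≠ 0 := by
  intro h0
  have hx : ‖(x : E)‖ = 1 := mem_sphere_zero_iff_norm.1 x.2
  have hdist : ‖(u : E →L[ℝ] E) x - x‖ < 1 := by
    have := ((u : E →L[ℝ] E) - 1).le_opNorm (x : E)
    rw [hx, mul_one] at this
    exact lt_of_le_of_lt this hu
  have h1 : (x : E) = -((t : ℝ) • ((u : E →L[ℝ] E) x - x)) := eq_neg_of_add_eq_zero_left h0
  have h2 : ‖(x : E)‖ = t * ‖(u : E →L[ℝ] E) x - x‖ := by
    conv_lhs => rw [h1]
    rw [norm_neg, norm_smul, Real.norm_eq_abs, abs_of_nonneg t.2.1]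
  rw [hx] at h2
  have h3 : (t : ℝ) * ‖(u : E →L[ℝ] E) x - x‖ ≤ 1 * ‖(u : E →L[ℝ] E) x - x‖ := by
    gcongr
    exact t.2.2
  linarith

theorem comap_mem_nhds (j : ℕ) :
    ((actTrivially (sphere (0 : E) 1) j).comap
      (act (sphere (0 : E) 1) (mem_sphere_of_norm_eq 1)) : Set (unitary (E →L[ℝ] E))) ∈ 𝓝 1 := by
  have hball : {u : unitary (E →L[ℝ] E) | ‖(u : E →L[ℝ] E) - 1‖ < 1} ∈ 𝓝 1 := by
    have hc : Continuous fun u : unitary (E →L[ℝ] E) => ‖(u : E →L[ℝ] E) - 1‖ := by fun_prop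
    refine (isOpen_Iio.preimage hc).mem_nhds ?_
    simp
  refine Filter.mem_of_superset hball fun u hu => ?_
  change (singHomology j).map
    (homeoHom (act (sphere (0 : E) 1) (mem_sphere_of_norm_eq 1) u)) = 𝟙 _
  let H : TopCat.Homotopy (homeoHom (1 : sphere (0 : E) 1 ≃ₜ sphere (0 : E) 1))
      (homeoHom (act (sphere (0 : E) 1) (mem_sphere_of_norm_eq 1) u)) :=
    homotopyOfNear u (pos_of_near u hu)
  rw [← singHomology_map_eq_of_homotopy H j, homeoHom_one]
  exact (singHomology j).map_id _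

/-- Rotations act trivially on the homology of the sphere. -/
theorem rot_mem_actTrivially (j : ℕ) (k : unitary (E →L[ℝ] E)) (hk : k ∈ Rot E) :
    act (sphere (0 : E) 1) (mem_sphere_of_norm_eq 1) k ∈ actTrivially (sphere (0 : E) 1) j := by
  have hopen := Subgroup.isOpen_of_mem_nhds _ (comap_mem_nhds (E := E) j)
  have hclopen : IsClopen ((actTrivially (sphere (0 : E) 1) j).comap
      (act (sphere (0 : E) 1) (mem_sphere_of_norm_eq 1)) : Set (unitary (E →L[ℝ] E))) :=
    ⟨Subgroup.isClosed_of_isOpen _ hopen, hopen⟩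
  exact hclopen.connectedComponent_subset (one_mem _) hk

/-- Rotations of the ball act trivially on the homology of the pair (ball, sphere). -/
theorem rot_mem_actTriviallyRel [FiniteDimensional ℝ E] (j : ℕ)
    (i : C(sphere (0 : E) 1, closedBall (0 : E) 1)) (hi : IsEmbedding i)
    (hi' : ∀ x, (i x : E) = x) (k : unitary (E →L[ℝ] E)) (hk : k ∈ Rot E) :
    act (closedBall (0 : E) 1) (mem_closedBall_of_norm_eq 1) k ∈ actTriviallyRel i hi (j + 1) := by
  have hr : ∀ x : closedBall (0 : E) 1, x ∈ range i ↔ ‖(x : E)‖ = 1 := by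
    intro x
    constructor
    · rintro ⟨y, rfl⟩
      rw [hi']
      exact mem_sphere_zero_iff_norm.1 y.2
    · intro hx
      exact ⟨⟨x, mem_sphere_zero_iff_norm.2 hx⟩, Subtype.ext (hi' _)⟩
  refine ⟨fun x => ?_, ?_⟩
  · rw [hr, hr, act_apply, Unitary.norm_map]
  · let e : Arrow.mk (TopCat.ofHom i) ⟶ Arrow.mk (TopCat.ofHom i) :=
      Arrow.homMk (homeoHom (act (sphere (0 : E) 1) (mem_sphere_of_norm_eq 1) k))
        (homeoHom (act (closedBall (0 : E) 1) (mem_closedBall_of_norm_eq 1) k)) (by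
          ext x
          refine Subtype.ext ?_
          change (i (act (sphere (0 : E) 1) (mem_sphere_of_norm_eq 1) k x) : E) =
            (k : E →L[ℝ] E) (i x : E)
          rw [hi', hi', act_apply])
    refine ⟨e, rfl, ?_⟩
    have hmono : Mono (TopCat.ofHom i) := by
      rw [TopCat.mono_iff_injective]
      exact hi.injective
    have hcontr : ContractibleSpace (closedBall (0 : E) 1) :=
      (convex_closedBall (0 : E) 1).contractibleSpace ⟨0, by simp⟩
    exact relHomology_map_eq_id (TopCat.ofHom i) j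
      (isZero_singHomology_of_contractible (TopCat.of (closedBall (0 : E) 1)) (j + 1) (by omega)) e
      (rot_mem_actTrivially j k hk)

end Pool.Agent.Work.MP_4235af_lc
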